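import Pool.Agent.Y116.MC.Main

/-!
# The Mumford–Tate conjecture and systems of bilinear equations
-/

set_option autoImplicit false

open CategoryTheory Limits MonoidalCategory AlgebraicGeometry Pool.Agent.Y116.UV
open Pool.Agent.Y101.Th Pool.Agent.Y101.Th.RX Pool.Agent.Y116.MC

namespace Pool.Agent.Results.MP_c1bb77_ag.BilinearEquations

universe v u

attribute [local instance] Abelian.hasFiniteBiproducts

variable {𝒜 : Type u} [Category.{v} 𝒜] [Abelian 𝒜] [MonoidalCategory 𝒜]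
  {F : Type} [Field F] {V : 𝒜 ⥤ ModuleCat.{0} F} {T : Coh 𝒜}

/-- **The Mumford–Tate conjecture and systems of bilinear equations.** -/
theorem result [CharZero F] [V.Monoidal] [V.Additive] (hT : IsCoh V T) (𝔤 𝔥 : Set (Der V)) :
    (∀ d : ℕ, 1 ≤ d → List.TFAE [
      ∀ X : Sch QBar, SmProj X → topologicalKrullDim X.left ≤ d → ∀ n, Agree 𝔤 𝔥 (T.tot X n),
      ∀ N, Agree 𝔤 𝔥 (T.M N (d + 3)),
      ∀ n, ∃ N, n ≤ N ∧ Agree 𝔤 𝔥 (T.M N (d + 3))]) ∧
    List.TFAE [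
      ∀ X : Sch QBar, SmProj X → IrreducibleSpace X.left → ∀ i, Agree 𝔤 𝔥 (T.H X i),
      ∀ X : Sch QBar, SmProj X → ∀ n, Agree 𝔤 𝔥 (T.tot X n),
      ∀ N, Agree 𝔤 𝔥 (T.M N N),
      ∀ n, ∃ N, n ≤ N ∧ Agree 𝔤 𝔥 (T.M N N)] ∧
    ((∀ X : Sch QBar, SmProj X → topologicalKrullDim X.left ≤ (0 : ℕ) → ∀ n,
        Agree 𝔤 𝔥 (T.tot X n ⊞ T.L)) →
      ∀ (a b c : ℕ) (t : Fin a → Fin b → Fin c → ℚ), b ≤ 2 ∨ c ≤ 2 → ∀ n,
        Agree 𝔤 𝔥 (⨁ fun i : Fin n => T.E (bilS t) (i : ℤ))) := by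
  refine ⟨fun d hd => ?_, ?_, fun h a b c t hm n => ?_⟩
  · tfae_have 1 → 2 := by
      intro h N
      obtain ⟨X, hX, hXd, n, hn⟩ := M_tot hT hd N
      exact agree_of_gen hn (h X hX hXd n)
    tfae_have 2 → 3 := fun h n => ⟨n, le_rfl, h n⟩
    tfae_have 3 → 1 := by
      intro h X hX hXd n
      obtain ⟨N, hN⟩ := tot_gen_M hT d X hX hXd n
      obtain ⟨N', hN', h'⟩ := h N
      exact agree_of_gen ((M_mono hN' le_rfl).trans hN) h'
    tfae_finish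
  · tfae_have 1 → 2 := by
      intro h X hX n
      obtain ⟨Z, j, hj⟩ := tot_one hT X hX n
      exact agree_of_gen hj (h Z.1 Z.2.1 Z.2.2 j)
    tfae_have 2 → 3 := by
      intro h N
      obtain ⟨X, hX, hXd, n, hn⟩ := M_tot hT (d := N + 1) (by omega) N
      exact agree_of_gen (hn.trans (M_mono le_rfl (by omega))) (h X hX n)
    tfae_have 3 → 4 := fun h n => ⟨n, le_rfl, h n⟩
    tfae_have 4 → 1 := by
      intro h X hX _ i
      obtain ⟨N, hN⟩ := tot_gen_MM hT X hX (i.toNat + 1)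
      obtain ⟨N', hN', h'⟩ := h N
      refine agree_of_gen (((M_mono hN' hN').trans hN).trans (gen_tot_H hT hX i _ ?_)) h'
      omega
    tfae_finish
  · have := nonempty_SP hT 0
    obtain ⟨x, hx⟩ := dir_big (dir_fam hT 0) (fun i : Fin n => T.E (bilS t) (i : ℤ))
      fun i => bil_fam hT 0 t hm _
    exact agree_of_gen hx (h x.1.1 x.1.2.1 x.1.2.2 x.2)

end Pool.Agent.Results.MP_c1bb77_ag.BilinearEquations
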