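import Mathlib
import Pool.Agent.Y114.GF.MainM

/-!
# The Tate conjecture at every prime `ℓ` for motives with a place of large monodromy, from finitely
# many Frobenius polynomials

Let `M i` be finitely many pure motives over a number field `F`, of the same odd weight `w`, with
polarizations; `V ℓ i` is the `ℓ`-adic realization of `M i`, of dimension `n i`, with the action
`ρ ℓ i` of the absolute Galois group of `F`, `ω ℓ i` is the alternating form given by the
polarization and `χ ℓ` the power with exponent `- w` of the cyclotomic character.  Nothing is
assumed on semisimplicity, on the endomorphisms of the `M i` or on their Hodge numbers.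

Let `T` be a set of primes, unramified in `F`, such that the `M i` have good reduction at all places
above the `p ∈ T` (finitely many `p` suffice), with Frobenius polynomials `P v i ∈ ℚ[X]`, which are
pure of weight `w`; `p` is *relation free* if there are only trivial multiplicative relations between
the roots of the `P v i` for `v` above `p` and all `i` (no multiple roots, no real roots, and complex
conjugate roots have the same exponents in a relation); this is the generic case.

Theorem.  Let `ℓ` be a prime such that `T` contains at least three primes different from `ℓ`, one of
them relation free.  Suppose that for every `i` there is a place of residue characteristic different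
from `ℓ` at which the monodromy operator `N` on `V ℓ i` satisfies `N ^ (n i / 2) ≠ 0`, and for every
`i` and every even `d` with `0 < d < n i` a place of residue characteristic different from `ℓ`

* at which `N ^ m ≠ 0` with `m = max d (n i - d)`, or
* with tame inertia such that the characteristic polynomial of a generator is a product of
  cyclotomic polynomials `Φ_e` and such that the order of `q` modulo `e` is divisible by a number `o`,
  `o ∤ d` (`q` is the number of elements of the residue field).

(All this is the case if the monodromy at one place is maximally unipotent: `N ^ (n i - 1) ≠ 0`.  If
`n i = 4` it is enough that `N ^ 2 ≠ 0`, if `n i = 2` that `N ≠ 0`.)  Then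

* the representation `V ℓ = ⊕ V ℓ i` is semisimple, for all subgroups of finite index, and
* all homomorphisms `V ℓ ^ {⊗ s} (c) → V ℓ ^ {⊗ t} (d)` of representations of subgroups of finite
  index are linear combinations of contractions and products with the polarizations.

So if `T` has four elements, two of them relation free, and if there are places with large monodromy
of two residue characteristics, then the Tate conjecture (surjectivity of
`Hom(M, M') ⊗ ℚ_ℓ → Hom_{G_{F'}}(M_ℓ, M'_ℓ)`, over all finite extensions `F'` of `F`) and the
semisimplicity conjecture hold for ALL primes `ℓ` and all pure motives `M`, `M'` in the tensor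
category generated by the `M i`.  Examples are the motives of the members of families of
Calabi-Yau type (Dwork families, mirror quintics, hypergeometric motives) at parameters which
are congruent to the cusp modulo two primes, if two Frobenius polynomials are relation free.

The proof.  By the theorem on the determinants of stable subspaces (library `Pool.Agent.Y115`, it
rests on the `ℓ`-adic six exponentials theorem) and the absence of relations a stable subspace of
`V ℓ i` on which the form is zero is zero.  So a stable subspace `U` has even dimension `d` and a
stable complement; the monodromy operator would satisfy `N ^ m = 0` on both, for `m = max d (n i - d)`,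
and in the tame case `o` would divide `d`.  So `V ℓ i` is irreducible, and the operator with
`N ^ (n i / 2) ≠ 0` shows that it is absolutely irreducible for all subgroups of finite index.  The
Lie algebra of the endomorphisms which kill all Tate classes contains a Cartan subalgebra
of the product of the symplectic Lie algebras, so it is this product; the first fundamental
theorem gives the result.
-/

set_option autoImplicit false

namespace Pool.Agent.Results.MP_c1bb77_ag.LargeMonodromyEveryPrime

open NumberField IsDedekindDomain Polynomial Pool.Agent.Y114.TF Pool.Agent.Y114.GF
  Pool.Agent.Y114.AP

theorem result {F : Type} [Field F] [NumberField F] {ι : Type} [Fintype ι] {n : ι → ℕ}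
    -- the `ℓ`-adic realizations of the `M i`, of weight `w`, and their polarizations
    (R : Realizations n Gal(AlgebraicClosure F/F)) (w : ℕ) (hR : IsSystem R w)
    -- places of good reduction
    (P : HeightOneSpectrum (𝓞 F) → ι → ℚ[X]) (T : Set ℕ)
    (hT : ∀ p ∈ T, p.Prime ∧ UnramifiedIn F p)
    (hP : ∀ p ∈ T, ∀ v, Above v p → GoodAt R w v (P v))
    -- a prime `ℓ`
    (ℓ : ℕ) (hℓ : ℓ.Prime) (h3 : 3 ≤ (T \ {ℓ}).encard)
    (hfree : ∃ p ∈ T, p ≠ ℓ ∧ RelationFree P p)
    -- places of large monodromy, or with tame inertia
    (hmon : ∀ i, ∃ p, p ≠ ℓ ∧ MonodromyAt R i p (n i / 2))
    (hd : ∀ i d, Even d → 0 < d → d < n i →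
      (∃ p, p ≠ ℓ ∧ MonodromyAt R i p (max d (n i - d))) ∨
        ∃ p o, p ≠ ℓ ∧ ¬ o ∣ d ∧ TameAt R i p o) :
    R.TateAt ℓ := by
  obtain ⟨p, hp, hne, hf⟩ := hfree
  exact Data.tateAt (P := P) (T := T) (p₀ := p) ⟨hR, hℓ, h3, hT, hP, hp, hne, hf⟩ hmon hd

end Pool.Agent.Results.MP_c1bb77_ag.LargeMonodromyEveryPrime
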