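import Mathlib
import Pool.Agent.Y224.AZ.Two
import Pool.Agent.Y224.AZ.All
import Pool.Agent.Y126.Notions

/-!
# The Mumford-Tate conjecture for products of abelian varieties with arbitrary varieties

Let `A` be an abelian variety over a number field `k` (or a finitely generated field of characteristic
zero) embedded in `ℂ`, `ℓ` a prime, `K` the algebraic closure of `ℚ_ℓ` and `X = K ⊗ H_1(A(ℂ), ℚ)`, which
is `K ⊗ V_ℓ(A)` by the comparison theorem. Let `Z_1, …, Z_r` be **arbitrary** smooth projective
varieties over `k` and let `Y` be the sum of `K ⊗ H^i(Z_j(ℂ), ℚ)` for all `i` and `j`, or of some of these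
groups and of their dual spaces. Two groups act on `X` and `Y`:
* the Galois group `Γ` of `k`, with the cyclotomic character `χ`;
* the group `M` of the `K`-rational points of the Mumford-Tate group of the sum of all these Hodge
  structures, with the character `χ'` given by the Tate structure.

By Künneth all tensors in `H^*(A) ^ (⊗ k) ⊗ H^*(Z) ^ (⊗ l)` are found among the multilinear forms `T` in
`k` variables on `X` with values in multilinear forms in `l` variables on `Y`. The form `T` is a Tate
tensor if `T(g v)(g y) = χ(g) ^ t T(v)(y)` for the elements `g` of a subgroup of finite index of `Γ`, and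
it is a Hodge tensor if this is so for `M` and `χ'` (`IsTateTensor`; the Zariski closure of each
subgroup of finite index of `M` is the whole group, which is connected). The Mumford-Tate conjecture
for `A × Z` says that the tensors of the two groups are the same (and that the Galois representation
is semisimple; then the identity component of the Zariski closure of the image of `Γ` and the
Mumford-Tate group are two reductive groups, which are determined by their invariant tensors).

A subspace `U` of `X` is strongly irreducible if it is minimal among the nonzero subspaces that are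
stable under a subgroup of finite index. If `A` is simple over the separable closure and of type I or
II in the classification of Albert, `E` is the centre of its endomorphism algebra and `d ^ 2` the
dimension of this algebra over `E`, then all strongly irreducible subspaces are symplectic of dimension
`2 h`, where `h = dim A / (d [E : ℚ])` is the relative dimension of `A`.

Theorem. Let all strongly irreducible subspaces of `X` be symplectic, of dimension four or of a
dimension not divisible by four (that is, all simple factors of `A` over the separable closure are of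
type I or II and their relative dimensions are two or odd). Let `Y` be the sum of stable subspaces
`W_j` (for example the cohomology groups of the `Z_j`, or their transcendental parts), and for each
strongly irreducible `U` let one of the following be true (`IsSeparated`):
* each `W_j` is potentially abelian (a subgroup of finite index acts through an abelian group), or its
  dimension `b` satisfies `2 b ^ 2 < dim U (dim U + 1)`;
* or there is an element `γ` with `(γ - 1) ^ 2 = 0` on `X` which does not act trivially on `U`, but acts
  trivially on `Y`.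
Then **the Mumford-Tate conjecture for `A × Z` is equivalent to the Mumford-Tate conjecture for
`Z`**: all Tate tensors on `X` and `Y` are Hodge tensors and conversely, if and only if this is so for
the twisted tensors on `Y` (`IsTwistedTensor`). The only thing which is used about `A` is the theorem of
Faltings, in the form that the invariant bilinear forms on `X` are the same for the two groups (they
are classes of divisors on `A × A`).

*Hodge pairs* (`IsHodgePair`). These are operators `x` on `X` and `z` on `Y` such that `x ^ 2 = 1 / 4`
and such that the operator which is `x + 1 / 2` on `X`, `z` on `Y`, `- 1` on the inverse of `χ` and `0` on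
the trivial representation kills all multilinear forms on `X ⊕ Y ⊕ χ⁻¹ ⊕ 1` that are invariant under
a subgroup of finite index; moreover `x` kills the Tate classes of `X`, and `z` is in the linear span
of the image of each subgroup of finite index. All this is true for the elements of the Lie algebra of
the Zariski closure of the image of the group. For the Mumford-Tate group the derivatives of the
conjugates of the Hodge cocharacter are Hodge pairs, and they generate by the definition of the
Mumford-Tate group. For the Galois group the Hodge-Tate operators (more precisely, the derivatives of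
the cocharacters over `K` that are conjugate to the Hodge-Tate cocharacters) are Hodge pairs by the
theorem of Sen, and generate by the theorems of Faltings, Serre and Pink (`IsHodgeSet`). The
representation on `X` is semisimple and has a nondegenerate form with multiplier `χ`, given by a
polarization (Faltings; Riemann). These are the hypotheses collected in `IsMonodromyGroup`.

Example. `A` with `End A = ℤ` of odd dimension `g` and `Z` a product of arbitrary varieties whose
Betti numbers `b` satisfy `b ^ 2 < g (2 g + 1)` (for example arbitrary surfaces, not necessarily of abelian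
type) and of Fermat varieties or abelian varieties with complex multiplication, in any number. The
theorem on Tate classes alone, and in every characteristic, is MP_c184fc_ag, ProductsWithVarieties.
-/

namespace Pool.Agent.Results.MP_c1bb77_ag.TimesArbitraryVariety

open Module Pool.Agent.Y126.Notions

noncomputable section

variable {K X Y Γ : Type} [Field K] [AddCommGroup X] [Module K X] [AddCommGroup Y] [Module K Y]
  [Group Γ]

/-- The action on the sum of `X`, `Y`, the inverse of `χ` and the trivial representation. -/
def totalAction (R : Representation K Γ X) (Q : Representation K Γ Y) (χ : Γ →* K) (g : Γ)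
    (e : X × Y × K × K) : X × Y × K × K :=
  (R g e.1, Q g e.2.1, χ g⁻¹ • e.2.2.1, e.2.2.2)

/-- The operators `x` and `z` on `X` and `Y` come from an element of the Lie algebra of the Zariski
closure, which acts as `x + 1 / 2` on `X` and as `1` on the character `χ`. -/
def IsHodgePair (R : Representation K Γ X) (Q : Representation K Γ Y) (χ : Γ →* K)
    (x : Module.End K X) (z : Module.End K Y) : Prop :=
  x * x = (1 / 4 : K) • 1 ∧
  (∀ (m : ℕ) (φ : MultilinearMap K (fun _ : Fin m × Fin 2 => X) K),
    (∃ Δ : Subgroup Γ, Δ.FiniteIndex ∧ ∀ g ∈ Δ, ∀ v, φ (fun k => R g (v k)) = χ g ^ m * φ v) →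
    ∀ v, ∑ k, φ (Function.update v k (x (v k))) = 0) ∧
  (∀ (m : ℕ) (φ : MultilinearMap K (fun _ : Fin m × Fin 2 => X × Y × K × K) K),
    (∃ Δ : Subgroup Γ, Δ.FiniteIndex ∧ ∀ g ∈ Δ, ∀ e,
      φ (fun k => totalAction R Q χ g (e k)) = φ e) →
    ∀ e, ∑ k, φ (Function.update e k
      (x (e k).1 + (1 / 2 : K) • (e k).1, z (e k).2.1, -(e k).2.2.1, 0)) = 0) ∧
  ∀ Δ : Subgroup Γ, Δ.FiniteIndex → z ∈ Submodule.span K {y : Module.End K Y | ∃ g ∈ Δ, y = Q g}

/-- A nonempty set of Hodge pairs, stable under conjugation, such that the operators on `X` that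
commute with its first components commute with a subgroup of finite index. -/
def IsHodgeSet (R : Representation K Γ X) (Q : Representation K Γ Y) (χ : Γ →* K)
    (S : Set (Module.End K X × Module.End K Y)) : Prop :=
  S.Nonempty ∧ (∀ s ∈ S, IsHodgePair R Q χ s.1 s.2) ∧
  (∀ g : Γ, ∀ s ∈ S, (R g * s.1 * R g⁻¹, Q g * s.2 * Q g⁻¹) ∈ S) ∧
  ∀ P : Module.End K X, (∀ s ∈ S, P * s.1 = s.1 * P) →
    ∃ Δ : Subgroup Γ, Δ.FiniteIndex ∧ ∀ g ∈ Δ, P * R g = R g * P

/-- A subgroup of finite index acts on the subspace `W` through an abelian group. -/
def IsPotentiallyAbelian (Q : Representation K Γ Y) (W : Submodule K Y) : Prop :=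
  ∃ Δ : Subgroup Γ, Δ.FiniteIndex ∧ ∀ g ∈ Δ, ∀ h ∈ Δ, ∀ y ∈ W, Q g (Q h y) = Q h (Q g y)

/-- The parts `W j` of `Y` are unrelated to the subspace `U` of `X`. -/
def IsSeparated (R : Representation K Γ X) (Q : Representation K Γ Y) {J : Type}
    (W : J → Submodule K Y) (U : Submodule K X) : Prop :=
  (∀ j, IsPotentiallyAbelian Q (W j) ∨
    2 * finrank K (W j) ^ 2 < finrank K U * (finrank K U + 1)) ∨
  ∃ γ : Γ, (R γ - 1) * (R γ - 1) = 0 ∧ U.map (R γ - 1) ≠ ⊥ ∧ Q γ = 1

/-- All strongly irreducible subspaces of `X` are symplectic, of dimension four or of a dimension not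
divisible by four, and unrelated to the `W j`. -/
def HasGoodPieces (R : Representation K Γ X) (Q : Representation K Γ Y) (χ : Γ →* K) {J : Type}
    (W : J → Submodule K Y) : Prop :=
  ∀ U, StronglyIrreducible R U → IsSymplectic R χ U ∧
    (finrank K U = 4 ∨ ¬4 ∣ finrank K U) ∧ IsSeparated R Q W U

/-- The properties of the Galois group and of the Mumford-Tate group: the representation on `X` is
semisimple and has a polarization, there is a set of Hodge pairs, and `Y` is a sum of stable subspaces
unrelated to the strongly irreducible subspaces of `X`, which are symplectic, of dimension four or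
not divisible by four. -/
structure IsMonodromyGroup (R : Representation K Γ X) (Q : Representation K Γ Y) (χ : Γ →* K) :
    Prop where
  semisimple : PotentiallySemisimple R
  polarization : ∃ ω : X →ₗ[K] X →ₗ[K] K, (∀ u, (∀ v, ω u v = 0) → u = 0) ∧
    ∀ g u v, ω (R g u) (R g v) = χ g * ω u v
  hodge : ∃ S, IsHodgeSet R Q χ S
  parts : ∃ (n : ℕ) (W : Fin n → Submodule K Y), (⨆ j, W j = ⊤) ∧
    (∀ j, ∀ g, ∀ y ∈ W j, Q g y ∈ W j) ∧ HasGoodPieces R Q χ W

/-- A bilinear form on which a subgroup of finite index acts through `χ`. -/
def IsTateForm (R : Representation K Γ X) (χ : Γ →* K) (B : X →ₗ[K] X →ₗ[K] K) : Prop :=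
  ∃ Δ : Subgroup Γ, Δ.FiniteIndex ∧ ∀ g ∈ Δ, ∀ u v, B (R g u) (R g v) = χ g * B u v

/-- A tensor on `X` and `Y` on which a subgroup of finite index acts through `χ ^ t`. -/
def IsTateTensor (R : Representation K Γ X) (Q : Representation K Γ Y) (χ : Γ →* K) {k l : ℕ}
    (t : ℕ) (T : MultilinearMap K (fun _ : Fin k => X) (MultilinearMap K (fun _ : Fin l => Y) K)) :
    Prop :=
  ∃ Δ : Subgroup Γ, Δ.FiniteIndex ∧ ∀ g ∈ Δ, ∀ (v : Fin k → X) (y : Fin l → Y),
    T (fun i => R g (v i)) (fun j => Q g (y j)) = χ g ^ t * T v y

/-- A tensor on `Y` on which a subgroup of finite index acts through `χ ^ (t - s)`. -/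
def IsTwistedTensor (Q : Representation K Γ Y) (χ : Γ →* K) {l : ℕ} (s t : ℕ)
    (w : MultilinearMap K (fun _ : Fin l => Y) K) : Prop :=
  ∃ Δ : Subgroup Γ, Δ.FiniteIndex ∧ ∀ g ∈ Δ, ∀ y : Fin l → Y,
    χ g ^ s * w (fun j => Q g (y j)) = χ g ^ t * w y

/-- The two groups have the same tensors on `X` and `Y`. -/
def SameTensors {M : Type} [Group M] (R : Representation K Γ X) (Q : Representation K Γ Y)
    (χ : Γ →* K) (R' : Representation K M X) (Q' : Representation K M Y) (χ' : M →* K) : Prop :=
  ∀ (k l t : ℕ) (T : MultilinearMap K (fun _ : Fin k => X) (MultilinearMap K (fun _ : Fin l => Y) K)),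
    IsTateTensor R Q χ t T ↔ IsTateTensor R' Q' χ' t T

/-- The two groups have the same tensors on `Y`. -/
def SameTwistedTensors {M : Type} [Group M] (Q : Representation K Γ Y) (χ : Γ →* K)
    (Q' : Representation K M Y) (χ' : M →* K) : Prop :=
  ∀ (l s t : ℕ) (w : MultilinearMap K (fun _ : Fin l => Y) K),
    IsTwistedTensor Q χ s t w ↔ IsTwistedTensor Q' χ' s t w

open Pool.Agent.H204R3.SP Pool.Agent.H204R3.GP Pool.Agent.W522.U

theorem hodge_hp {R : Representation K Γ X} {Q : Representation K Γ Y} {χ : Γ →* K}
    {S : Set (Module.End K X × Module.End K Y)} (h : IsHodgeSet R Q χ S) :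
    Pool.Agent.Y224.AZ.HP R Q χ S := by
  obtain ⟨h1, h2, h3, h5⟩ := h
  refine ⟨h1, fun s hs => (h2 s hs).1, fun s hs => ?_, fun s hs => ?_,
    fun s hs => (h2 s hs).2.2.2, h3, h5⟩
  · intro m φ hφ
    exact (h2 s hs).2.1 m φ hφ
  · intro m φ hφ
    refine (h2 s hs).2.2.1 m φ ?_
    obtain ⟨Δ, hΔ, hφ'⟩ := hφ
    refine ⟨Δ, hΔ, fun g hg e => ?_⟩
    have h6 := hφ' g hg e
    rw [MonoidHom.one_apply, one_pow, one_mul] at h6
    exact h6

theorem result {K X Y Γ M : Type} [Field K] [CharZero K] [IsAlgClosed K] [AddCommGroup X]
    [Module K X] [FiniteDimensional K X] [Nontrivial X] [AddCommGroup Y] [Module K Y]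
    [FiniteDimensional K Y] [Group Γ] [Group M]
    (R : Representation K Γ X) (Q : Representation K Γ Y) (χ : Γ →* K)
    (R' : Representation K M X) (Q' : Representation K M Y) (χ' : M →* K)
    (hΓ : IsMonodromyGroup R Q χ) (hM : IsMonodromyGroup R' Q' χ')
    (hforms : ∀ B : X →ₗ[K] X →ₗ[K] K, IsTateForm R χ B ↔ IsTateForm R' χ' B) :
    SameTensors R Q χ R' Q' χ' ↔ SameTwistedTensors Q χ Q' χ' := by
  obtain ⟨hss, ⟨ω, hnd, hωR⟩, ⟨S, hS⟩, n, W, hsum, hW, hp⟩ := hΓ
  obtain ⟨hss', ⟨ω', hnd', hωR'⟩, ⟨S', hS'⟩, n', W', hsum', hW', hp'⟩ := hM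
  have ha : ∀ U, SI R U → Pool.Agent.W528.Tor.AltDual R χ U := fun U hU => (hp U hU).1
  have ha' : ∀ U, SI R' U → Pool.Agent.W528.Tor.AltDual R' χ' U := fun U hU => (hp' U hU).1
  have hR := Pool.Agent.Y224.AZ.rdy ω hnd hωR (Pool.Agent.Y224.AZ.hasProj_self hss) ha
    (fun U hU => (hp U hU).2.1.symm) Pool.Agent.Y224.AZ.allS (hodge_hp hS) hW hsum
    (fun U hU => (hp U hU).2.2)
  have hR' := Pool.Agent.Y224.AZ.rdy ω' hnd' hωR' (Pool.Agent.Y224.AZ.hasProj_self hss') ha'
    (fun U hU => (hp' U hU).2.1.symm) Pool.Agent.Y224.AZ.allS (hodge_hp hS') hW' hsum'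
    (fun U hU => (hp' U hU).2.2)
  constructor
  · intro h l s t w
    obtain ⟨u, hu⟩ := exists_ne (0 : X)
    obtain ⟨v, hv⟩ : ∃ v, ω u v ≠ 0 := by
      by_contra hcon
      push Not at hcon
      exact hu (hnd u hcon)
    obtain ⟨v', hv'⟩ : ∃ v, ω' u v ≠ 0 := by
      by_contra hcon
      push Not at hcon
      exact hu (hnd' u hcon)
    constructor
    · exact Pool.Agent.Y224.AZ.tenY_of_ten ω hωR
        ((hforms ω).1 ⟨⊤, inferInstance, fun g _ u v => hωR g u v⟩) hv
        (fun k l t T => (h k l t T).1) w
    · exact Pool.Agent.Y224.AZ.tenY_of_ten ω' hωR'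
        ((hforms ω').2 ⟨⊤, inferInstance, fun g _ u v => hωR' g u v⟩) hv'
        (fun k l t T => (h k l t T).2) w
  · intro h k l t T
    constructor
    · exact Pool.Agent.Y224.AZ.compare ω hnd hωR (Pool.Agent.Y224.AZ.hasProj_self hss) ha hR
        Pool.Agent.Y224.AZ.allS (fun B => (hforms B).1) (fun l s t w => (h l s t w).1) T
    · exact Pool.Agent.Y224.AZ.compare ω' hnd' hωR' (Pool.Agent.Y224.AZ.hasProj_self hss') ha' hR'
        Pool.Agent.Y224.AZ.allS (fun B => (hforms B).2) (fun l s t w => (h l s t w).2) T

end

end Pool.Agent.Results.MP_c1bb77_ag.TimesArbitraryVariety
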